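import Pool.Agent.H91.DentDelta

set_option autoImplicit false

open H91.DentDelta in
theorem Pool.Agent.Results.MP_a21db2_an.DentDelta.result :
    ∃ (X : Type) (_ : NormedAddCommGroup X) (_ : NormedSpace ℝ X) (x : X),
    CompleteSpace X ∧ ‖x‖ = 1 ∧ x ∈ closure (dent X) ∧
      ∀ U : Set (WeakSpace ℝ X), IsOpen U → toWeakSpace ℝ X x ∈ U → ∀ ε : ℝ, 0 < ε →
        ∃ y : X, ‖y‖ ≤ 1 ∧ toWeakSpace ℝ X y ∈ U ∧ 2 - ε < ‖x - y‖ :=
  main
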